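import Pool.Agent.Q31.GLV.Stm

/-!
# Job GLV-NEA
-/

set_option autoImplicit false

namespace Pool.Agent.Q280.GLV

open Module Cardinal Submodule Pool.Agent.Q31.GLV

theorem t_NEA : S_NEA := by
  intro F V _ _ _ S hS A B hA hB hAB
  obtain ⟨W, hW, hAW, hBW, h1, h2⟩ := hAB
  obtain ⟨C, hC⟩ := Submodule.exists_isCompl (A.submoduleOf W)
  obtain ⟨C', hC'⟩ := Submodule.exists_isCompl (B.submoduleOf W)
  have hrA : Module.rank F (A.submoduleOf W) = Module.rank F V := by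
    rw [LinearEquiv.rank_eq (Submodule.submoduleOfEquivOfLe hAW)]
    exact hA.1
  have hrB : Module.rank F (B.submoduleOf W) = Module.rank F V := by
    rw [LinearEquiv.rank_eq (Submodule.submoduleOfEquivOfLe hBW)]
    exact hB.1
  have hrC : Module.rank F C = Module.rank F V := by
    rw [← LinearEquiv.rank_eq (Submodule.quotientEquivOfIsCompl _ _ hC)]
    exact h1
  have hrC' : Module.rank F C' = Module.rank F V := by
    rw [← LinearEquiv.rank_eq (Submodule.quotientEquivOfIsCompl _ _ hC')]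
    exact h2
  obtain ⟨f⟩ := nonempty_linearEquiv_of_rank_eq (hrA.trans hrB.symm)
  obtain ⟨f'⟩ := nonempty_linearEquiv_of_rank_eq (hrC.trans hrC'.symm)
  let g : W ≃ₗ[F] W := (Submodule.prodEquivOfIsCompl _ _ hC).symm ≪≫ₗ (f.prodCongr f') ≪≫ₗ
    (Submodule.prodEquivOfIsCompl _ _ hC')
  obtain ⟨s, hs, hsg⟩ := hS W hW g
  have hgA : ∀ a : A.submoduleOf W, g (a : W) = (f a : W) := by
    intro a
    simp [g]
  refine ⟨s, hs, ?_⟩
  apply le_antisymm
  · rintro _ ⟨a, ha, rfl⟩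
    have h3 : (⟨a, hAW ha⟩ : W) ∈ A.submoduleOf W := ha
    have h4 := hgA ⟨⟨a, hAW ha⟩, h3⟩
    have h5 := hsg ⟨a, hAW ha⟩
    have h6 : s a = ((f ⟨⟨a, hAW ha⟩, h3⟩ : W) : V) := by
      rw [← h4]
      exact h5
    show s a ∈ B
    rw [h6]
    exact (f ⟨⟨a, hAW ha⟩, h3⟩).2
  · intro b hb
    have h3 : (⟨b, hBW hb⟩ : W) ∈ B.submoduleOf W := hb
    let a := f.symm ⟨⟨b, hBW hb⟩, h3⟩
    refine ⟨((a : W) : V), a.2, ?_⟩
    have h4 := hgA a
    have h5 := hsg (a : W)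
    show s ((a : W) : V) = b
    rw [h5, h4]
    simp [a]

end Pool.Agent.Q280.GLV
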