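import Pool.Agent.Q31.GLV.Stm

/-!
# Job GLV-SUM
-/

set_option autoImplicit false

namespace Pool.Agent.Q280.GLV

open Module Cardinal Submodule Pool.Agent.Q31.GLV

section mat
variable {F V : Type} [Field F] [AddCommGroup V] [Module F V]

/-- `[[a, 1], [1, 0]]` -/
def m1 (a : V →ₗ[F] V) : (V × V) ≃ₗ[F] (V × V) where
  toFun p := (a p.1 + p.2, p.1)
  map_add' p q := by ext <;> simp [add_add_add_comm]
  map_smul' r p := by ext <;> simp
  invFun p := (p.2, p.1 - a p.2)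
  left_inv p := by ext <;> simp
  right_inv p := by ext <;> simp

/-- `[[0, -1], [-1, d]]` -/
def m2 (d : V →ₗ[F] V) : (V × V) ≃ₗ[F] (V × V) where
  toFun p := (-p.2, d p.2 - p.1)
  map_add' p q := by ext <;> simp <;> abel
  map_smul' r p := by ext <;> simp [smul_sub]
  invFun p := (-d p.1 - p.2, -p.1)
  left_inv p := by ext <;> simp
  right_inv p := by ext <;> simp

/-- `[[1, b], [0, 1]]` -/
def m3 (b : V →ₗ[F] V) : (V × V) ≃ₗ[F] (V × V) where
  toFun p := (p.1 + b p.2, p.2)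
  map_add' p q := by ext <;> simp <;> abel
  map_smul' r p := by ext <;> simp
  invFun p := (p.1 - b p.2, p.2)
  left_inv p := by ext <;> simp
  right_inv p := by ext <;> simp

/-- `[[-1, 0], [c, -1]]` -/
def m4 (c : V →ₗ[F] V) : (V × V) ≃ₗ[F] (V × V) where
  toFun p := (-p.1, c p.1 - p.2)
  map_add' p q := by ext <;> simp <;> abel
  map_smul' r p := by ext <;> simp [smul_sub]
  invFun p := (-p.1, -c p.1 - p.2)
  left_inv p := by ext <;> simp
  right_inv p := by ext <;> simp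

end mat

theorem t_SUM : S_SUM := by
  intro F V _ _ _ hV e
  have h1 : Module.rank F V = Module.rank F (V × V) := by
    rw [rank_prod', Cardinal.add_eq_self hV]
  obtain ⟨φ⟩ := nonempty_linearEquiv_of_rank_eq h1
  let E : (V × V) →ₗ[F] (V × V) := (φ : V →ₗ[F] V × V) ∘ₗ e ∘ₗ (φ.symm : (V × V) →ₗ[F] V)
  let a := (LinearMap.fst F V V) ∘ₗ E ∘ₗ (LinearMap.inl F V V)
  let b := (LinearMap.fst F V V) ∘ₗ E ∘ₗ (LinearMap.inr F V V)
  let c := (LinearMap.snd F V V) ∘ₗ E ∘ₗ (LinearMap.inl F V V)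
  let d := (LinearMap.snd F V V) ∘ₗ E ∘ₗ (LinearMap.inr F V V)
  refine ⟨φ ≪≫ₗ m1 a ≪≫ₗ φ.symm, φ ≪≫ₗ m2 d ≪≫ₗ φ.symm, φ ≪≫ₗ m3 b ≪≫ₗ φ.symm,
    φ ≪≫ₗ m4 c ≪≫ₗ φ.symm, ?_⟩
  intro v
  have hE : ∀ p : V × V, E p = (a p.1 + b p.2, c p.1 + d p.2) := by
    intro p
    have h2 : p = LinearMap.inl F V V p.1 + LinearMap.inr F V V p.2 := by
      ext <;> simp
    conv_lhs => rw [h2]
    rw [map_add]
    ext
    · rfl
    · rfl
  have h3 : φ (e v) = E (φ v) := by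
    show φ (e v) = φ (e (φ.symm (φ v)))
    rw [φ.symm_apply_apply]
  have h4 : E (φ v) = m1 a (φ v) + m2 d (φ v) + m3 b (φ v) + m4 c (φ v) := by
    rw [hE]
    ext
    · show a (φ v).1 + b (φ v).2 =
        (a (φ v).1 + (φ v).2) + (-(φ v).2) + ((φ v).1 + b (φ v).2) + (-(φ v).1)
      abel
    · show c (φ v).1 + d (φ v).2 =
        (φ v).1 + (d (φ v).2 - (φ v).1) + (φ v).2 + (c (φ v).1 - (φ v).2)
      abel
  have h5 : e v = φ.symm (m1 a (φ v) + m2 d (φ v) + m3 b (φ v) + m4 c (φ v)) := by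
    rw [← h4, ← h3, φ.symm_apply_apply]
  rw [h5]
  simp only [map_add]
  rfl

end Pool.Agent.Q280.GLV
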